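import Pool.Agent.Q155.QI.Basic

/-!
Q1 of MP_acbfbf_co: the coefficientwise inequality holds for every positive integer `L`.
-/

set_option autoImplicit false

namespace Pool.Agent.Results.MP_acbfbf_co.Inequality

open Q155.QI

/-- For every `L ≥ 1` every coefficient of (left side minus right side) is nonnegative. -/
theorem result (L : ℕ) (hL : 1 ≤ L) (n : ℕ) : 0 ≤ PowerSeries.coeff n (lhs L - rhs L) :=
  final L hL n

end Pool.Agent.Results.MP_acbfbf_co.Inequality
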